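import Pool.Agent.Helper6.E.Defs

/-! Basic facts on nested averages and the merging of two operators. -/

set_option linter.unusedSectionVars false

namespace Pool.Agent.Helper6.E

open Matrix Equiv Pool.Agent.Helper15.An
open scoped ComplexOrder

section basics
variable {d : Type} [Fintype d] [DecidableEq d] {ι : Type}

theorem nest_posSemidef (u : ι → Matrix d d ℂ) {P : Matrix d d ℂ} (hP : P.PosSemidef)
    (l : List ι) : (nest u P l).PosSemidef := by
  induction l with
  | nil => exact hP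
  | cons a l ih => exact (ih.add (ih.conjTranspose_mul_mul_same (u a))).smul (by norm_num)

theorem nest_le_one (u : ι → Matrix d d ℂ) (hu : ∀ a, (u a)ᴴ * u a = 1) {P : Matrix d d ℂ}
    (hP : (1 - P).PosSemidef) (l : List ι) : (1 - nest u P l).PosSemidef := by
  induction l with
  | nil => exact hP
  | cons a l ih =>
    have h2 := (ih.add (ih.conjTranspose_mul_mul_same (u a))).smul
      (show (0 : ℝ) ≤ 1 / 2 by norm_num)
    convert h2 using 1
    rw [nest, Matrix.mul_sub, Matrix.sub_mul, Matrix.mul_one, hu]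
    module

theorem qf_two {M : Matrix d d ℂ} (hM : M.PosSemidef) (a b : d → ℂ) :
    qf M (a - b) ≤ 2 * qf M a + 2 * qf M b := by
  have h := qf_nonneg hM (a + b)
  have : qf M (a - b) + qf M (a + b) = 2 * qf M a + 2 * qf M b := by
    unfold qf
    simp only [star_sub, star_add, mulVec_sub, mulVec_add, sub_dotProduct, add_dotProduct,
      dotProduct_sub, dotProduct_add, Complex.sub_re, Complex.add_re]
    ring
  linarith

theorem qf_smul_vec (M : Matrix d d ℂ) (c : ℝ) (v : d → ℂ) : qf M (c • v) = c ^ 2 * qf M v := by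
  unfold qf
  rw [Matrix.mulVec_smul, star_smul, smul_dotProduct, dotProduct_smul]
  simp only [star_trivial, Complex.real_smul, Complex.re_ofReal_mul]
  ring

theorem nrm2_pos {v : d → ℂ} (hv : v ≠ 0) : 0 < nrm2 v := by
  rcases (nrm2_nonneg v).lt_or_eq with h | h
  · exact h
  · exfalso
    apply hv
    unfold nrm2 at h
    have h2 := (Finset.sum_eq_zero_iff_of_nonneg (fun i _ => by positivity)).1 h.symm
    funext i
    have h3 := h2 i (Finset.mem_univ i)
    have h4 : ‖v i‖ = 0 := by simpa using h3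
    exact norm_eq_zero.1 h4

/-- merging an operator with a gap off the range of `P` and one which moves the range of `P` -/
theorem merge_two {T Y P : Matrix d d ℂ} (hT : T.IsHermitian) (hY : Y.IsHermitian)
    (hT1 : ((1 : ℝ) • (1 : Matrix d d ℂ) - T).PosSemidef)
    (hY1 : ((1 : ℝ) • (1 : Matrix d d ℂ) - Y).PosSemidef)
    (hY2 : (Y - (-1 : ℝ) • (1 : Matrix d d ℂ)).PosSemidef)
    (hP : P.IsHermitian) (hPP : P * P = P) (η : ℝ) (h0 : 0 < η) (h1 : η ≤ 1)
    (hgap : (((1 : ℝ) • (1 : Matrix d d ℂ) - T) - η • ((1 : Matrix d d ℂ) - P)).PosSemidef)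
    (hno : ∀ v, nrm2 v = 1 → P *ᵥ v = v → qf Y v ≤ 4 / 5) :
    ((1 - η / 1000) • (1 : Matrix d d ℂ) - (1 / 2 : ℝ) • (T + Y)).PosSemidef := by
  have hH : ((1 - η / 1000) • (1 : Matrix d d ℂ) - (1 / 2 : ℝ) • (T + Y)).IsHermitian := by
    unfold Matrix.IsHermitian
    rw [conjTranspose_sub, conjTranspose_smul, conjTranspose_smul, conjTranspose_add,
      hY.eq, hT.eq, conjTranspose_one]
    simp
  refine posSemidef_of_qf hH fun v => ?_
  rw [qf_sub, qf_smul, qf_smul, qf_add, qf_one]
  by_contra hneg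
  rw [not_le] at hneg
  set N := nrm2 v with hN
  have hN0 : 0 ≤ N := nrm2_nonneg v
  have hTv : qf T v ≤ N := by
    have := qf_nonneg hT1 v
    rw [qf_sub, qf_smul, qf_one] at this
    linarith
  have hYv : qf Y v ≤ N := by
    have := qf_nonneg hY1 v
    rw [qf_sub, qf_smul, qf_one] at this
    linarith
  set z : d → ℂ := ((1 : Matrix d d ℂ) - P) *ᵥ v with hz
  set w : d → ℂ := P *ᵥ v with hw
  have hwz : w = v - z := by
    rw [hw, hz, Matrix.sub_mulVec, Matrix.one_mulVec]; abel
  have hzn : nrm2 z = qf ((1 : Matrix d d ℂ) - P) v := by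
    rw [hz, nrm2_mulVec]
    congr 1
    rw [conjTranspose_sub, conjTranspose_one, hP.eq, Matrix.sub_mul, Matrix.mul_sub,
      Matrix.mul_sub, hPP, Matrix.one_mul, Matrix.one_mul, Matrix.mul_one]
    abel
  have hwn : nrm2 w = qf P v := by
    rw [hw, nrm2_mulVec, hP.eq, hPP]
  have hsum : nrm2 w + nrm2 z = N := by
    rw [hwn, hzn, qf_sub, qf_one]; ring
  have hz2 : η * nrm2 z ≤ N - qf T v := by
    have := qf_nonneg hgap v
    rw [qf_sub, qf_sub, qf_smul, qf_smul, qf_one, ← hzn] at this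
    linarith
  have hNpos : 0 < N := by
    rcases hN0.lt_or_eq with h | h
    · exact h
    · exfalso
      have hv0 : v = 0 := by
        by_contra hv
        have := nrm2_pos hv
        rw [← hN] at this
        linarith
      rw [hv0] at hneg
      have e1 : qf T (0 : d → ℂ) = 0 := by simp [qf]
      have e2 : qf Y (0 : d → ℂ) = 0 := by simp [qf]
      rw [e1, e2, ← h] at hneg
      norm_num at hneg
  have hz3 : nrm2 z ≤ N / 500 := by
    have h2 : η * nrm2 z ≤ η * (N / 500) := by nlinarith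
    exact le_of_mul_le_mul_left h2 h0
  have hz0 := nrm2_nonneg z
  have h4 : qf ((1 : ℝ) • (1 : Matrix d d ℂ) - Y) w ≤
      2 * qf ((1 : ℝ) • (1 : Matrix d d ℂ) - Y) v + 2 * qf ((1 : ℝ) • (1 : Matrix d d ℂ) - Y) z := by
    rw [hwz]; exact qf_two hY1 v z
  have h5 : qf ((1 : ℝ) • (1 : Matrix d d ℂ) - Y) z ≤ 2 * nrm2 z := by
    have := qf_nonneg hY2 z
    rw [qf_sub, qf_smul, qf_one] at this
    rw [qf_sub, qf_smul, qf_one]
    linarith
  rw [qf_sub, qf_smul, qf_one, qf_sub, qf_smul, qf_one, ← hN] at h4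
  have h6 : qf Y w ≤ 4 / 5 * nrm2 w := by
    have hw0 : 0 < nrm2 w := by linarith
    set c : ℝ := (Real.sqrt (nrm2 w))⁻¹ with hc
    have hs : 0 < Real.sqrt (nrm2 w) := Real.sqrt_pos.2 hw0
    have hc2 : c ^ 2 * nrm2 w = 1 := by
      rw [hc, inv_pow, Real.sq_sqrt hw0.le, inv_mul_cancel₀ hw0.ne']
    have h7 := hno (c • w) (by rw [nrm2_smul]; exact hc2) (by
      rw [Matrix.mulVec_smul, hw, Matrix.mulVec_mulVec, hPP])
    rw [qf_smul_vec] at h7
    have h8 : c ^ 2 * qf Y w ≤ c ^ 2 * (4 / 5 * nrm2 w) := by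
      calc c ^ 2 * qf Y w ≤ 4 / 5 := h7
        _ = c ^ 2 * (4 / 5 * nrm2 w) := by rw [mul_left_comm, hc2]; ring
    exact le_of_mul_le_mul_left h8 (by positivity)
  nlinarith

end basics

end Pool.Agent.Helper6.E
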