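import Pool.Agent.Helper6.E.Defs
import Pool.Agent.Helper3.E.PartCount
import Pool.Agent.Helper3.E.Lower
import Pool.Agent.Helper83.E.ExpTrace
import Pool.Agent.Helper83.E.FewFresh
import Pool.Agent.Helper88.E.BlockMarkov
import Pool.Agent.Helper88.E.IrrConj

/-! The ingredients: traces of exponentials, the lower bound by nested averages, counting. -/

namespace Pool.Agent.Helper6.E

open Matrix Equiv Pool.Agent.Helper15.An
open scoped ComplexOrder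

theorem irr_count {n : ℕ} (F : PW (Perm (Fin n))) :
    F.c ≤ (n + 1) ^ (2 * (Nat.sqrt n + 1)) :=
  (Pool.Agent.Helper88.E.irr_le_conj F).trans (Pool.Agent.Helper3.E.conj_perm_card n)

section
variable {d : Type} [Fintype d] [DecidableEq d]

theorem tre_fresh {Ω : Type} [Fintype Ω] (a : Ω → Matrix d d ℂ)
    (ha : ∀ ω, (a ω)ᴴ * a ω = 1) (hd : 0 < Fintype.card d)
    (hdes : ∀ M : Matrix d d ℂ, M.PosSemidef →
      ((2 * (Fintype.card Ω : ℝ) * (trace M).re / Fintype.card d) • (1 : Matrix d d ℂ) -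
        ∑ ω, (a ω)ᴴ * M * a ω).PosSemidef)
    {X : Matrix d d ℂ} (hX : X.IsHermitian) (t : ℝ) :
    ∑ ω, tre ((1 / 2 : ℝ) • (X + (a ω)ᴴ * X * a ω)) (2 * t) ≤
      2 * Fintype.card Ω * (tre X t) ^ 2 / Fintype.card d :=
  Pool.Agent.Helper83.E.tre_fresh a ha hd hdes hX t

theorem tre_conj_le {X u : Matrix d d ℂ} (hX : X.IsHermitian) (hu : uᴴ * u = 1) (t : ℝ) :
    tre ((1 / 2 : ℝ) • (X + uᴴ * X * u)) t ≤ tre X t :=
  Pool.Agent.Helper83.E.tre_conj_le hX hu t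

theorem tre_start {e : Type} [Fintype e] [DecidableEq e] {J : Matrix d e ℂ} (hJ : Jᴴ * J = 1)
    {t : ℝ} (ht : 0 ≤ t) :
    tre (J * Jᴴ) t ≤ Fintype.card d + (Real.exp t - 1) * Fintype.card e :=
  Pool.Agent.Helper83.E.tre_start hJ ht

theorem exp_qf_le_tre {X : Matrix d d ℂ} (hX : X.IsHermitian) {t : ℝ} (ht : 0 ≤ t) (v : d → ℂ)
    (hv : nrm2 v = 1) : Real.exp (t * qf X v) ≤ tre X t :=
  Pool.Agent.Helper83.E.exp_qf_le_tre hX ht v hv

theorem lower {ι : Type} [Fintype ι] (u : ι → Matrix d d ℂ) (hu : ∀ a, (u a)ᴴ * u a = 1)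
    (hsym : (∑ a, u a).IsHermitian) {P : Matrix d d ℂ} (hP : P.PosSemidef) (hPP : P * P = P)
    (v : d → ℂ) (hv : nrm2 v = 1) (hPv : P *ᵥ v = v) (c : ℝ) (hc0 : 0 ≤ c)
    (hc : (Fintype.card ι : ℝ) * c ≤ qf (∑ a, (1 / 2 : ℝ) • (1 + u a)) v) (J : ℕ) :
    (Fintype.card ι : ℝ) ^ J * c ^ J ≤
      ∑ l : Fin J → ι, Real.sqrt (qf (nest u P (List.ofFn l)) v) :=
  Pool.Agent.Helper3.E.lower u hu hsym hP hPP v hv hPv c hc0 hc J

end

theorem few_fresh (K h : ℕ) (hK : 32 * h ≤ K) :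
    Nat.card {l : Fin (2 * h) → Fin K × Bool // fr (List.ofFn l) < h} * 4 ^ h ≤
      (2 * K) ^ (2 * h) :=
  Pool.Agent.Helper83.E.few_fresh K h hK

theorem block_markov {n : ℕ} (F : PW (Perm (Fin n))) (k₀ k : ℕ) (hk₀ : 0 < k₀) (hk : k₀ ≤ k)
    (p : ℕ) (ε q : ℝ) (hε : 0 ≤ ε)
    (h : (Nat.card {z : Fin k₀ → Alt n // ¬ Good F (tupW z) p ε} : ℝ) ≤
      (Fintype.card (Alt n) : ℝ) ^ k₀ * q) :
    (Nat.card {z : Fin k → Alt n // ¬ Good F (tupW z) p (ε / 4)} : ℝ) ≤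
      (Fintype.card (Alt n) : ℝ) ^ k * (2 * q) :=
  Pool.Agent.Helper88.E.block_markov F k₀ k hk₀ hk p ε q hε h

end Pool.Agent.Helper6.E
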