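import Pool.Agent.Helper15.An.Graph

/-! Nested averages of conjugates of a projection. -/

namespace Pool.Agent.Helper6.E

open Matrix Equiv Pool.Agent.Helper15.An
open scoped ComplexOrder

section nest
variable {d : Type} [Fintype d] [DecidableEq d] {ι : Type}

/-- nested averages of conjugates of `P`:
`nest [] = P`, `nest (a :: l) = (nest l + (u a)ᴴ (nest l) (u a)) / 2` -/
noncomputable def nest (u : ι → Matrix d d ℂ) (P : Matrix d d ℂ) : List ι → Matrix d d ℂ
  | [] => P
  | a :: l => (1 / 2 : ℝ) • (nest u P l + (u a)ᴴ * nest u P l * u a)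

/-- trace of `exp (t X)` -/
noncomputable def tre (X : Matrix d d ℂ) (t : ℝ) : ℝ := (trace (NormedSpace.exp (t • X))).re

end nest

/-- number of distinct first coordinates -/
def fr {K : ℕ} (l : List (Fin K × Bool)) : ℕ := (l.map Prod.fst).toFinset.card

/-- the unitaries `ρ (y i)` and `(ρ (y i))ᴴ` -/
noncomputable def lett {n D K : ℕ} (ρ : Perm (Fin n) →* Matrix (Fin D) (Fin D) ℂ)
    (y : Fin K → Alt n) (a : Fin K × Bool) : Matrix (Fin D) (Fin D) ℂ :=
  if a.2 then ρ (y a.1 : Perm (Fin n)) else (ρ (y a.1 : Perm (Fin n)))ᴴ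

end Pool.Agent.Helper6.E
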