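import Pool.Agent.Helper15.An.Graph

/-! Eigenfunctions of the random walk: no eigenvalue above `1 - ε` on functions of mean zero. -/

set_option linter.unusedSectionVars false

namespace Pool.Agent.Helper6.E

open Matrix Equiv Filter Pool.Agent.Helper15.An
open scoped ComplexOrder

variable {n : ℕ}

theorem eig_claim (F : PW (Perm (Fin n))) {k : ℕ} (z : Fin k → Alt n) (ε : ℝ)
    (hgood : Good F (tupW z) n ε) (f : Alt n → ℝ) (hf : f ≠ 0) (hsum : ∑ g, f g = 0)
    (a : ℝ) (ha : 1 - ε < a)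
    (hPf : ∀ g, (2 * (k : ℝ))⁻¹ * ∑ i, (f (g * z i) + f (g * (z i)⁻¹)) = a * f g) : False := by
  classical
  -- the Fourier coefficient
  obtain ⟨i, hi⟩ := F.complete (fun g => if h : g ∈ Alt n then ((f ⟨g, h⟩ : ℝ) : ℂ) else 0) (by
    intro h0
    apply hf
    ext g
    have h1 := congrFun h0 (g : Perm (Fin n))
    simp only [SetLike.coe_mem, dite_true, Subtype.coe_eta, Pi.zero_apply] at h1
    exact_mod_cast h1)
  set M : Matrix (Fin (F.D i)) (Fin (F.D i)) ℂ := ∑ g : Alt n, f g • F.ρ i (g : Perm (Fin n))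
    with hM
  have hMeq : ∑ g : Perm (Fin n), (if h : g ∈ Alt n then ((f ⟨g, h⟩ : ℝ) : ℂ) else 0) • F.ρ i g =
      M := by
    rw [hM, ← Finset.sum_filter_add_sum_filter_not Finset.univ (fun g : Perm (Fin n) => g ∈ Alt n)]
    have h2 : ∑ g ∈ Finset.univ.filter (fun g : Perm (Fin n) => ¬ g ∈ Alt n),
        (if h : g ∈ Alt n then ((f ⟨g, h⟩ : ℝ) : ℂ) else 0) • F.ρ i g = 0 := by
      refine Finset.sum_eq_zero fun g hg => ?_
      rw [dif_neg (Finset.mem_filter.1 hg).2, zero_smul]
    rw [h2, add_zero]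
    refine (Finset.sum_subtype (p := fun g : Perm (Fin n) => g ∈ Alt n)
      (F := inferInstanceAs (Fintype (Alt n)))
      (Finset.univ.filter (fun g : Perm (Fin n) => g ∈ Alt n))
      (fun g => by
        rw [Finset.mem_filter]
        exact ⟨fun h => h.2, fun h => ⟨Finset.mem_univ g, h⟩⟩)
      (fun g => (if h : g ∈ Alt n then ((f ⟨g, h⟩ : ℝ) : ℂ) else 0) • F.ρ i g)).trans ?_
    refine Finset.sum_congr rfl fun g _ => ?_
    rw [dif_pos g.2]
    ext p q
    simp
  rw [hMeq] at hi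
  have hu := (F.irr i).unit
  by_cases ht : Triv (F.ρ i) (Alt n)
  · apply hi
    rw [hM]
    have h3 : ∀ g : Alt n, f g • F.ρ i (g : Perm (Fin n)) =
        f g • (1 : Matrix (Fin (F.D i)) (Fin (F.D i)) ℂ) := fun g => by rw [ht g]
    simp_rw [h3]
    rw [← Finset.sum_smul, hsum, zero_smul]
  · set A := avgRe (fun l => F.ρ i (z l : Perm (Fin n))) with hA
    have hgap := hgood i ht (hasFix_top (F.irr i).pos (F.ρ i))
    rw [wop_tupW (F.ρ i) hu, ← hA] at hgap
    -- intertwining
    have hMA : M * A = a • M := by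
      have h4 : a • M = ∑ g : Alt n, ((2 * (k : ℝ))⁻¹ * ∑ i, (f (g * z i) + f (g * (z i)⁻¹))) •
          F.ρ i (g : Perm (Fin n)) := by
        rw [hM, Finset.smul_sum]
        refine Finset.sum_congr rfl fun g _ => ?_
        rw [hPf g, smul_smul]
      rw [h4, hA, hM]
      unfold avgRe
      rw [Matrix.mul_smul]
      simp_rw [mul_smul]
      rw [← Finset.smul_sum]
      congr 1
      simp_rw [Finset.sum_smul]
      rw [Finset.mul_sum, Finset.sum_comm]
      refine Finset.sum_congr rfl fun l _ => ?_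
      rw [Matrix.mul_add, Finset.sum_mul, Finset.sum_mul]
      simp_rw [add_smul]
      rw [Finset.sum_add_distrib, add_comm]
      congr 1
      · rw [← Equiv.sum_comp (Equiv.mulRight (z l)) (fun g : Alt n =>
          f g • F.ρ i (g : Perm (Fin n)) * (F.ρ i (z l : Perm (Fin n)))ᴴ)]
        refine Finset.sum_congr rfl fun g _ => ?_
        rw [Equiv.coe_mulRight, Matrix.smul_mul, Subgroup.coe_mul, map_mul, Matrix.mul_assoc,
          rho_mul_conj (F.ρ i) hu, Matrix.mul_one]
      · rw [← Equiv.sum_comp (Equiv.mulRight (z l)⁻¹) (fun g : Alt n =>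
          f g • F.ρ i (g : Perm (Fin n)) * F.ρ i (z l : Perm (Fin n)))]
        refine Finset.sum_congr rfl fun g _ => ?_
        rw [Equiv.coe_mulRight, Matrix.smul_mul, ← map_mul, ← Subgroup.coe_mul,
          inv_mul_cancel_right]
    -- positivity
    have h5 : M * ((a - (1 - ε)) • (1 : Matrix (Fin (F.D i)) (Fin (F.D i)) ℂ) +
        ((1 - ε : ℝ) • (1 : Matrix (Fin (F.D i)) (Fin (F.D i)) ℂ) - A)) * Mᴴ = 0 := by
      have h6 : (a - (1 - ε)) • (1 : Matrix (Fin (F.D i)) (Fin (F.D i)) ℂ) +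
        ((1 - ε : ℝ) • (1 : Matrix (Fin (F.D i)) (Fin (F.D i)) ℂ) - A) =
          a • (1 : Matrix (Fin (F.D i)) (Fin (F.D i)) ℂ) - A := by
        rw [sub_smul a]
        abel
      rw [h6, Matrix.mul_sub, hMA, Matrix.mul_smul, Matrix.mul_one, sub_self, Matrix.zero_mul]
    rw [Matrix.mul_add, Matrix.add_mul, Matrix.mul_smul, Matrix.mul_one, Matrix.smul_mul] at h5
    have h7 := congrArg (fun X => (trace X).re) h5
    simp only [trace_add, trace_smul, Complex.add_re, trace_zero, Complex.zero_re] at h7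
    have h8 : 0 ≤ (trace (M * ((1 - ε : ℝ) •
        (1 : Matrix (Fin (F.D i)) (Fin (F.D i)) ℂ) - A) * Mᴴ)).re :=
      (Complex.nonneg_iff.1 (hgap.mul_mul_conjTranspose_same M).trace_nonneg).1
    have h9 : 0 ≤ (trace (M * Mᴴ)).re :=
      (Complex.nonneg_iff.1 (posSemidef_self_mul_conjTranspose M).trace_nonneg).1
    rw [Complex.real_smul, Complex.re_ofReal_mul] at h7
    have h10 : (trace (M * Mᴴ)).re = 0 := by nlinarith
    have h11 : trace (M * Mᴴ) = 0 := by
      have h12 := trace_psd_real (posSemidef_self_mul_conjTranspose M).isHermitian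
      rw [h10] at h12
      rw [← h12]; simp
    exact hi (trace_mul_conjTranspose_self_eq_zero_iff.1 h11)

end Pool.Agent.Helper6.E
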