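import Pool.Agent.Helper6.E.Ingr
import Pool.Agent.Helper6.E.Nest

/-! The good event for one representation: every fresh letter squares the density. -/

set_option linter.unusedSectionVars false

namespace Pool.Agent.Helper6.E

open Matrix Equiv Pool.Agent.Helper15.An
open scoped ComplexOrder

section det
variable {d : Type} [Fintype d] [DecidableEq d] {K : ℕ}

/-- every fresh letter squares the normalised exponential trace, up to the factor `lam` -/
def GoodL (u : Fin K × Bool → Matrix d d ℂ) (P : Matrix d d ℂ) (Lam lam : ℝ) (J : ℕ) : Prop :=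
  ∀ l : List (Fin K × Bool), l.length < J → ∀ a : Fin K × Bool, a.1 ∉ l.map Prod.fst →
    tre (nest u P (a :: l)) (Lam * 2 ^ (fr l + 1)) ≤
      lam * (tre (nest u P l) (Lam * 2 ^ fr l)) ^ 2 / Fintype.card d

theorem tre_nonneg {X : Matrix d d ℂ} (hX : X.IsHermitian) (t : ℝ) : 0 ≤ tre X t := by
  unfold tre
  rw [trace_exp_smul hX]
  positivity

theorem tre_pos {X : Matrix d d ℂ} (hX : X.IsHermitian) (hd : 0 < Fintype.card d) (t : ℝ) :
    0 < tre X t := by
  unfold tre
  rw [trace_exp_smul hX]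
  have : Nonempty d := Fintype.card_pos_iff.1 hd
  exact Finset.sum_pos (fun i _ => Real.exp_pos _) Finset.univ_nonempty

theorem fr_cons_mem {l : List (Fin K × Bool)} {a : Fin K × Bool} (h : a.1 ∈ l.map Prod.fst) :
    fr (a :: l) = fr l := by
  unfold fr
  rw [List.map_cons, List.toFinset_cons, Finset.insert_eq_of_mem (List.mem_toFinset.2 h)]

theorem fr_cons_not_mem {l : List (Fin K × Bool)} {a : Fin K × Bool}
    (h : a.1 ∉ l.map Prod.fst) : fr (a :: l) = fr l + 1 := by
  unfold fr
  rw [List.map_cons, List.toFinset_cons, Finset.card_insert_of_notMem (by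
    rw [List.mem_toFinset]; exact h)]

theorem tre_bound {u : Fin K × Bool → Matrix d d ℂ} (hu : ∀ a, (u a)ᴴ * u a = 1)
    {P : Matrix d d ℂ} (hP : P.PosSemidef) {Lam lam : ℝ} {J : ℕ} (hd : 0 < Fintype.card d)
    (hlam : 1 ≤ lam) (hstart : tre P Lam ≤ 2 * Fintype.card d) (hG : GoodL u P Lam lam J)
    (l : List (Fin K × Bool)) (hl : l.length ≤ J) :
    tre (nest u P l) (Lam * 2 ^ fr l) ≤
      Fintype.card d * (2 * lam) ^ (2 ^ fr l) / lam := by
  have hlam0 : 0 < lam := by linarith
  have hd' : (0 : ℝ) < Fintype.card d := by exact_mod_cast hd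
  induction l with
  | nil =>
    have : fr ([] : List (Fin K × Bool)) = 0 := rfl
    rw [this, pow_zero, mul_one, pow_zero, pow_one]
    refine hstart.trans (le_of_eq ?_)
    field_simp
  | cons a l ih =>
    have hl' : l.length < J := by
      have : (a :: l).length = l.length + 1 := rfl
      omega
    have hX := (nest_posSemidef u hP l).isHermitian
    by_cases ha : a.1 ∈ l.map Prod.fst
    · rw [fr_cons_mem ha]
      exact (tre_conj_le hX (hu a) _).trans (ih hl'.le)
    · rw [fr_cons_not_mem ha]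
      refine (hG l hl' a ha).trans ?_
      have h1 := ih hl'.le
      have h0 := tre_nonneg hX (Lam * 2 ^ fr l)
      calc lam * (tre (nest u P l) (Lam * 2 ^ fr l)) ^ 2 / Fintype.card d ≤
          lam * (Fintype.card d * (2 * lam) ^ (2 ^ fr l) / lam) ^ 2 / Fintype.card d := by
            gcongr
        _ = Fintype.card d * (2 * lam) ^ (2 ^ (fr l + 1)) / lam := by
            rw [pow_succ 2 (fr l), pow_mul]
            field_simp

theorem qf_bound {u : Fin K × Bool → Matrix d d ℂ} (hu : ∀ a, (u a)ᴴ * u a = 1)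
    {P : Matrix d d ℂ} (hP : P.PosSemidef) {Lam lam : ℝ} {J : ℕ} (hd : 0 < Fintype.card d)
    (hLam : 0 < Lam) (hlam : 1 ≤ lam) (hstart : tre P Lam ≤ 2 * Fintype.card d)
    (hG : GoodL u P Lam lam J) (l : List (Fin K × Bool)) (hl : l.length ≤ J) {h : ℕ}
    (hfr : h ≤ fr l) (v : d → ℂ) (hv : nrm2 v = 1) :
    qf (nest u P l) v ≤ Real.log (Fintype.card d) / (Lam * 2 ^ h) + Real.log (2 * lam) / Lam := by
  have hd' : (1 : ℝ) ≤ Fintype.card d := by exact_mod_cast hd
  have hX := (nest_posSemidef u hP l).isHermitian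
  have h1 := tre_bound hu hP hd hlam hstart hG l hl
  have hpos : 0 < Lam * 2 ^ fr l := by positivity
  have h2 := (exp_qf_le_tre hX hpos.le v hv).trans h1
  have h3 : Real.exp (Lam * 2 ^ fr l * qf (nest u P l) v) ≤
      Fintype.card d * (2 * lam) ^ (2 ^ fr l) :=
    h2.trans (div_le_self (by positivity) hlam)
  have h4 : Lam * 2 ^ fr l * qf (nest u P l) v ≤
      Real.log (Fintype.card d) + 2 ^ fr l * Real.log (2 * lam) := by
    have h5 := Real.log_le_log (Real.exp_pos _) h3
    rw [Real.log_exp, Real.log_mul (by positivity) (by positivity), Real.log_pow] at h5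
    push_cast at h5
    exact h5
  have hlog : 0 ≤ Real.log (Fintype.card d) := Real.log_nonneg hd'
  calc qf (nest u P l) v ≤
      (Real.log (Fintype.card d) + 2 ^ fr l * Real.log (2 * lam)) / (Lam * 2 ^ fr l) := by
        rw [le_div_iff₀ hpos]; linarith
    _ = Real.log (Fintype.card d) / (Lam * 2 ^ fr l) + Real.log (2 * lam) / Lam := by
        field_simp
    _ ≤ Real.log (Fintype.card d) / (Lam * 2 ^ h) + Real.log (2 * lam) / Lam := by
        gcongr
        norm_num

end det

section irr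
variable {n D K : ℕ} {ρ : Perm (Fin n) →* Matrix (Fin D) (Fin D) ℂ}

theorem lett_unit (hu : ∀ g, (ρ g)ᴴ * ρ g = 1) (y : Fin K → Alt n) (a : Fin K × Bool) :
    (lett ρ y a)ᴴ * lett ρ y a = 1 := by
  unfold lett
  split_ifs
  · exact hu _
  · rw [conjTranspose_conjTranspose]
    exact rho_mul_conj ρ hu _

theorem sum_lett (y : Fin K → Alt n) :
    ∑ a, lett ρ y a = (2 * (K : ℝ)) • avgRe fun i => ρ (y i : Perm (Fin n)) := by
  rcases Nat.eq_zero_or_pos K with h0 | hK
  · subst h0
    simp
  · rw [Fintype.sum_prod_type]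
    unfold avgRe
    have hK' : (2 * (K : ℝ)) ≠ 0 := by positivity
    rw [smul_smul, mul_inv_cancel₀ hK', one_smul]
    refine Finset.sum_congr rfl fun i _ => ?_
    simp [lett]

theorem sum_lett_isHermitian (y : Fin K → Alt n) : (∑ a, lett ρ y a).IsHermitian := by
  rw [sum_lett]
  unfold Matrix.IsHermitian
  rw [conjTranspose_smul, (avgRe_isHermitian _).eq]
  simp

/-- vectors of the range of `P` are moved by the letters -/
theorem moved (hu : ∀ g, (ρ g)ᴴ * ρ g = 1) (hD : 0 < D) (y : Fin K → Alt n)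
    {P : Matrix (Fin D) (Fin D) ℂ} (hP : P.PosSemidef) (hP1 : (1 - P).PosSemidef)
    (hPP : P * P = P) {Lam lam : ℝ} {h : ℕ} (hh : 0 < h) (hK : 32 * h ≤ K) (hLam : 0 < Lam)
    (hlam : 1 ≤ lam) (hstart : tre P Lam ≤ 2 * D) (hG : GoodL (lett ρ y) P Lam lam (2 * h))
    (hnum : (1 / 4) ^ h + Real.sqrt (Real.log D / (Lam * 2 ^ h) + Real.log (2 * lam) / Lam) <
      (81 / 100) ^ h) (v : Fin D → ℂ) (hv : nrm2 v = 1) (hPv : P *ᵥ v = v) :
    qf (avgRe fun i => ρ (y i : Perm (Fin n))) v ≤ 4 / 5 := by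
  classical
  by_contra hcon
  rw [not_le] at hcon
  have hKpos : 0 < K := by omega
  have hKr : (0 : ℝ) < K := by exact_mod_cast hKpos
  have hcardι : (Fintype.card (Fin K × Bool) : ℝ) = 2 * K := by
    rw [Fintype.card_prod, Fintype.card_fin, Fintype.card_bool]; push_cast; ring
  have hcardD : 0 < Fintype.card (Fin D) := by rw [Fintype.card_fin]; exact hD
  have hlow := lower (lett ρ y) (lett_unit hu y) (sum_lett_isHermitian y) hP hPP v hv hPv (9 / 10)
    (by norm_num) (by
      rw [← Finset.smul_sum, Finset.sum_add_distrib, qf_smul, qf_add, sum_lett, qf_smul,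
        Finset.sum_const, Finset.card_univ, ← Nat.cast_smul_eq_nsmul ℝ, qf_smul, qf_one, hv,
        hcardι]
      nlinarith) (2 * h)
  rw [hcardι] at hlow
  set x : ℝ := Real.log D / (Lam * 2 ^ h) + Real.log (2 * lam) / Lam with hx
  set bad : Finset (Fin (2 * h) → Fin K × Bool) :=
    Finset.univ.filter fun l => fr (List.ofFn l) < h with hbad
  have hcount : ((bad.card : ℕ) : ℝ) * 4 ^ h ≤ (2 * K) ^ (2 * h) := by
    have h1 := few_fresh K h hK
    rw [Nat.card_eq_fintype_card, Fintype.card_subtype] at h1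
    exact_mod_cast h1
  have hterm : ∀ l : Fin (2 * h) → Fin K × Bool,
      Real.sqrt (qf (nest (lett ρ y) P (List.ofFn l)) v) ≤
        (if l ∈ bad then (1 : ℝ) else 0) + Real.sqrt x := by
    intro l
    have hle1 : qf (nest (lett ρ y) P (List.ofFn l)) v ≤ 1 := by
      have := qf_nonneg (nest_le_one (lett ρ y) (lett_unit hu y) hP1 (List.ofFn l)) v
      rw [qf_sub, qf_one, hv] at this
      linarith
    by_cases hl : l ∈ bad
    · rw [if_pos hl]
      have h1 : Real.sqrt (qf (nest (lett ρ y) P (List.ofFn l)) v) ≤ 1 := by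
        rw [Real.sqrt_le_one]; exact hle1
      have := Real.sqrt_nonneg x
      linarith
    · rw [if_neg hl, zero_add]
      apply Real.sqrt_le_sqrt
      have hfr : h ≤ fr (List.ofFn l) := by
        by_contra hc
        exact hl (Finset.mem_filter.2 ⟨Finset.mem_univ _, not_le.1 hc⟩)
      have h1 := qf_bound (lett_unit hu y) hP hcardD hLam hlam
        (by rw [Fintype.card_fin]; exact hstart) hG (List.ofFn l)
        (by rw [List.length_ofFn]) hfr v hv
      rw [Fintype.card_fin] at h1
      exact h1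
  have hsum := (hlow.trans (Finset.sum_le_sum fun l _ => hterm l))
  rw [Finset.sum_add_distrib, Finset.sum_ite_mem, Finset.univ_inter, Finset.sum_const,
    Finset.sum_const, nsmul_eq_mul, mul_one, nsmul_eq_mul, Finset.card_univ, Fintype.card_fun,
    Fintype.card_fin, Fintype.card_prod, Fintype.card_fin, Fintype.card_bool] at hsum
  push_cast at hsum
  have hN : (0 : ℝ) < (2 * K) ^ (2 * h) := by positivity
  have h9 : ((9 : ℝ) / 10) ^ (2 * h) = (81 / 100) ^ h := by
    rw [pow_mul]; norm_num
  have h10 : (bad.card : ℝ) ≤ (2 * K) ^ (2 * h) * (1 / 4) ^ h := by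
    rw [one_div, inv_pow, ← div_eq_mul_inv, le_div_iff₀ (by positivity)]
    exact hcount
  rw [h9, mul_comm (K : ℝ) 2] at hsum
  have h11 : ((2 : ℝ) * K) ^ (2 * h) * (81 / 100) ^ h ≤
      (2 * K) ^ (2 * h) * ((1 / 4) ^ h + Real.sqrt x) := by
    rw [mul_add]; linarith
  have h12 := le_of_mul_le_mul_left h11 hN
  linarith

end irr

end Pool.Agent.Helper6.E
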