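import Pool.Agent.Helper6.E.NumE

/-! `ε log n` random elements: a uniform gap on all representations. -/

set_option linter.unusedSectionVars false

namespace Pool.Agent.Helper6.E

open Matrix Equiv Filter Topology Pool.Agent.Helper15.An Pool.Agent.Helper6.W
open scoped ComplexOrder

/-- at least `e log n` random elements have a uniform gap on all nontrivial representations -/
theorem log_good {e : ℝ} (he : 0 < e) (he1 : e ≤ 1) : ∃ c : ℝ, 0 < c ∧ ∃ C : ℝ, 0 ≤ C ∧
    ∀ᶠ n : ℕ in atTop, ∀ F : PW (Perm (Fin n)), ∀ k : ℕ, e * Real.log n ≤ k →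
      (Nat.card {z : Fin k → Alt n // ¬ Good F (tupW z) n c} : ℝ) ≤
        (Fintype.card (Alt n) : ℝ) ^ k * (C / n) := by
  obtain ⟨ε, hε, hε1, K₀, hK₀⟩ := main_good (α := 1 - e / 2000) (by linarith)
  set k₀ := max K₀ 1 with hk₀
  have hk₀pos : 0 < k₀ := lt_of_lt_of_le one_pos (le_max_right _ _)
  obtain ⟨C, hC, hev⟩ := hK₀ k₀ (le_max_left _ _)
  refine ⟨ε / 4 / 8000 / 4, by positivity, 2 * (2 * C + 1), by positivity, ?_⟩
  have hbig : ∀ᶠ n : ℕ in atTop, 64 / e * ((k₀ : ℝ) + 1) ≤ Real.log n :=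
    tendsto_log_nat.eventually_ge_atTop _
  filter_upwards [hev, numOK he he1, hbig] with n hbase hnum hbig F k hk
  have hn0 : (0 : ℝ) < n := by
    have : 0 < n := by have := hnum.n1000; omega
    exact_mod_cast this
  have hApos : (0 : ℝ) < Fintype.card (Alt n) := card_pos' (Alt n)
  have hkh : k₀ ≤ hh e n := by
    unfold hh
    apply Nat.le_floor
    have h1 : 64 / e * ((k₀ : ℝ) + 1) * (e / 64) ≤ Real.log n * (e / 64) := by gcongr
    have h2 : 64 / e * ((k₀ : ℝ) + 1) * (e / 64) = k₀ + 1 := by field_simp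
    linarith
  set h := hh e n with hh_def
  set K := 32 * h with hKdef
  have hKpos : 0 < K := by omega
  have h1 := block_markov F k₀ K hk₀pos (by omega) (pp e n) ε (C / n) hε.le (hbase F)
  have h2 : ∀ x : Fin K → Alt n, Good F (tupW x) (pp e n) (ε / 4) →
      (Nat.card {y : Fin K → Alt n // ¬ Good F (mixW (tupW x) (tupW y)) n (ε / 4 / 8000)} : ℝ) ≤
        (Fintype.card (Alt n) : ℝ) ^ K * (1 / n) := by
    intro x hx
    have h3 := mix_good F (h := h) (p := pp e n) (r := rr e n) hnum.hpos (le_refl (32 * h)) x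
      (ε / 4) (by positivity) (by linarith) hx hnum.L24 hnum.rpos hnum.rp hnum.pn hnum.n1000
      (lamE n) hnum.lam1 hnum.num
    refine h3.trans ?_
    have h4 : (F.c : ℝ) ≤ ((n : ℝ) + 1) ^ (2 * (Nat.sqrt n + 1)) := by
      exact_mod_cast irr_count F
    have h5 := hnum.union
    have hlam : 0 < lamE n := Real.exp_pos _
    calc (F.c : ℝ) * (((2 * h : ℕ) : ℝ) * ((2 * ((32 * h : ℕ) : ℝ)) ^ (2 * h) *
          (2 / lamE n * (Fintype.card (Alt n) : ℝ) ^ K))) =
        (F.c : ℝ) * (((2 * h : ℕ) : ℝ) * ((2 * ((32 * h : ℕ) : ℝ)) ^ (2 * h) *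
          (2 / lamE n))) * (Fintype.card (Alt n) : ℝ) ^ K := by ring
      _ ≤ ((n : ℝ) + 1) ^ (2 * (Nat.sqrt n + 1)) * (((2 * h : ℕ) : ℝ) *
          ((2 * ((32 * h : ℕ) : ℝ)) ^ (2 * h) * (2 / lamE n))) *
            (Fintype.card (Alt n) : ℝ) ^ K := by gcongr
      _ ≤ 1 / n * (Fintype.card (Alt n) : ℝ) ^ K := by gcongr
      _ = _ := by ring
  have h3 := two_blocks F hKpos (ε / 4) (ε / 4 / 8000) (2 * (C / n)) (1 / n) (by positivity)
    h1 h2
  have hKK : K + K ≤ k := by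
    have h4 := hnum.size.trans hk
    exact_mod_cast h4
  have h4 := block_markov F (K + K) k (by omega) hKK n (ε / 4 / 8000) (2 * (C / n) + 1 / n)
    (by positivity) h3
  refine h4.trans (le_of_eq ?_)
  field_simp

end Pool.Agent.Helper6.E
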