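import Pool.Agent.Helper6.E.Prob
import Pool.Agent.Helper6.W.Claim

/-! Fresh elements extend the gap to all representations. -/

set_option linter.unusedSectionVars false

namespace Pool.Agent.Helper6.E

open Matrix Equiv Filter Topology Pool.Agent.Helper15.An Pool.Agent.Helper6.W
open scoped ComplexOrder

variable {n : ℕ}

theorem dim_le (F : PW (Perm (Fin n))) (i : Fin F.c) : (F.D i : ℝ) ≤ 2 * (n : ℝ) ^ n := by
  have h1 := sum_dim_hasFix_le F (stab n n) {i} (fun j _ => hasFix_top (F.irr j).pos (F.ρ j))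
  rw [Finset.sum_singleton] at h1
  exact h1.trans (index_stab_le n le_rfl)

theorem log_dim_le (F : PW (Perm (Fin n))) (hn : 3 ≤ n) (i : Fin F.c) :
    Real.log (F.D i) ≤ 2 * n * Real.log n := by
  have hD : (0 : ℝ) < F.D i := by exact_mod_cast (F.irr i).pos
  have hn0 : (3 : ℝ) ≤ n := by exact_mod_cast hn
  have h1 := Real.log_le_log hD (dim_le F i)
  rw [Real.log_mul (by norm_num) (by positivity), Real.log_pow] at h1
  have h2 : Real.log 2 ≤ Real.log n := Real.log_le_log (by norm_num) (by linarith)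
  have h3 : 0 ≤ Real.log n := Real.log_nonneg (by linarith)
  nlinarith

section one
variable {D : ℕ} {ρ : Perm (Fin n) →* Matrix (Fin D) (Fin D) ℂ}

theorem topProj_posSemidef {d : Type} [Fintype d] [DecidableEq d] {T : Matrix d d ℂ}
    (hT : T.IsHermitian) (θ : ℝ) : (topIso hT θ * (topIso hT θ)ᴴ).PosSemidef :=
  posSemidef_self_mul_conjTranspose _

theorem topProj_sq {d : Type} [Fintype d] [DecidableEq d] {T : Matrix d d ℂ}
    (hT : T.IsHermitian) (θ : ℝ) : (topIso hT θ * (topIso hT θ)ᴴ) * (topIso hT θ * (topIso hT θ)ᴴ)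
      = topIso hT θ * (topIso hT θ)ᴴ := by
  rw [Matrix.mul_assoc, ← Matrix.mul_assoc (topIso hT θ)ᴴ, topIso_conj_mul, Matrix.one_mul]

theorem topProj_le {d : Type} [Fintype d] [DecidableEq d] {T : Matrix d d ℂ}
    (hT : T.IsHermitian) (θ : ℝ) :
    ((1 : Matrix d d ℂ) - topIso hT θ * (topIso hT θ)ᴴ).PosSemidef := by
  have h1 : (1 : Matrix d d ℂ) - topIso hT θ * (topIso hT θ)ᴴ =
      (1 - topIso hT θ * (topIso hT θ)ᴴ)ᴴ * (1 - topIso hT θ * (topIso hT θ)ᴴ) := by
    rw [conjTranspose_sub, conjTranspose_one, (topProj_posSemidef hT θ).isHermitian.eq,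
      Matrix.sub_mul, Matrix.mul_sub, Matrix.mul_sub, Matrix.one_mul, Matrix.one_mul,
      Matrix.mul_one, topProj_sq]
    abel
  rw [h1]
  exact posSemidef_conjTranspose_mul_self _

/-- one representation, `y` good -/
theorem one_rep (hρ : IsIrr ρ) {μ : Perm (Fin n) → ℝ}
    (hμ : IsSP (Alt n : Set (Perm (Fin n))) μ) {K h : ℕ} (y : Fin K → Alt n) (hh : 0 < h)
    (hK : 32 * h ≤ K) (η : ℝ) (h0 : 0 < η) (h1 : η ≤ 1) {Lam lam : ℝ} (hLam : 0 < Lam)
    (hlam : 1 ≤ lam)
    (hcard : (Fintype.card (TopIdx (wop_isHermitian ρ hρ.unit hμ) (1 - η)) : ℝ) ≤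
      Real.exp (-Lam) * D)
    (hG : GoodL (lett ρ y) (topIso (wop_isHermitian ρ hρ.unit hμ) (1 - η) *
      (topIso (wop_isHermitian ρ hρ.unit hμ) (1 - η))ᴴ) Lam lam (2 * h))
    (hnum : (1 / 4) ^ h + Real.sqrt (Real.log D / (Lam * 2 ^ h) + Real.log (2 * lam) / Lam) <
      (81 / 100) ^ h) :
    ((1 - η / 1000) • (1 : Matrix (Fin D) (Fin D) ℂ) - wop ρ (mixW μ (tupW y))).PosSemidef := by
  have hT := wop_isHermitian ρ hρ.unit hμ
  have hKpos : 0 < K := by omega
  have hsp := tupW_isSP hKpos y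
  rw [wop_mixW]
  have hgap := gap_off_top hT (one_sub_wop ρ hρ.unit hμ) (1 - η)
  rw [show 1 - (1 - η) = η by ring] at hgap
  refine merge_two hT (wop_isHermitian ρ hρ.unit hsp) (one_sub_wop ρ hρ.unit hμ)
    (one_sub_wop ρ hρ.unit hsp) (wop_add_one ρ hρ.unit hsp)
    (topProj_posSemidef hT (1 - η)).isHermitian (topProj_sq hT (1 - η)) η h0 h1 hgap ?_
  intro v hv hPv
  rw [wop_tupW ρ hρ.unit]
  refine moved hρ.unit hρ.pos y (topProj_posSemidef hT (1 - η)) (topProj_le hT (1 - η))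
    (topProj_sq hT (1 - η)) hh hK hLam hlam ?_ hG hnum v hv hPv
  have h2 := tre_start (topIso_conj_mul hT (1 - η)) hLam.le
  refine h2.trans ?_
  rw [Fintype.card_fin]
  have h3 : 0 ≤ Real.exp Lam - 1 := by
    have := Real.one_le_exp hLam.le
    linarith
  have hD0 : (0 : ℝ) ≤ D := Nat.cast_nonneg _
  have h4 : (Real.exp Lam - 1) * (Fintype.card (TopIdx hT (1 - η)) : ℝ) ≤
      (Real.exp Lam - 1) * (Real.exp (-Lam) * D) := mul_le_mul_of_nonneg_left hcard h3
  have h5 : Real.exp Lam * Real.exp (-Lam) = 1 := by rw [← Real.exp_add]; simp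
  have h6 : 0 ≤ Real.exp (-Lam) * D := by positivity
  have h7 : (Real.exp Lam - 1) * (Real.exp (-Lam) * D) = D - Real.exp (-Lam) * D := by
    rw [sub_mul, ← mul_assoc, h5]; ring
  linarith

end one

/-- the fresh elements extend the gap to all representations -/
theorem mix_good (F : PW (Perm (Fin n))) {K h p r : ℕ} (hh : 0 < h) (hK : 32 * h ≤ K)
    (x : Fin K → Alt n) (ε : ℝ) (hε0 : 0 < ε) (hε1 : ε ≤ 1) (hgood : Good F (tupW x) p ε)
    (hL : 24 ≤ Real.log n) (hr : 1 ≤ r) (hrp : 400 * Real.log n ^ 2 * r ≤ p)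
    (hp : 16 * (p + 1) ≤ n) (hn : 1000 ≤ n) (lam : ℝ) (hlam : 1 ≤ lam)
    (hnum : (1 / 4) ^ h + Real.sqrt (2 * n * Real.log n / (r * Real.log n / 2 * 2 ^ h) +
      Real.log (2 * lam) / (r * Real.log n / 2)) < (81 / 100) ^ h) :
    (Nat.card {y : Fin K → Alt n // ¬ Good F (mixW (tupW x) (tupW y)) n (ε / 8000)} : ℝ) ≤
      F.c * (((2 * h : ℕ) : ℝ) * ((2 * (K : ℝ)) ^ (2 * h) *
        (2 / lam * (Fintype.card (Alt n) : ℝ) ^ K))) := by
  classical
  have hKpos : 0 < K := by omega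
  have hμ := tupW_isSP hKpos x
  have hr' : (1 : ℝ) ≤ r := by exact_mod_cast hr
  set Lam : ℝ := r * Real.log n / 2 with hLam
  have hLam0 : 0 < Lam := by positivity
  set P : ∀ i, Matrix (Fin (F.D i)) (Fin (F.D i)) ℂ := fun i =>
    topIso (wop_isHermitian (F.ρ i) (F.irr i).unit hμ) (1 - ε / 8) *
      (topIso (wop_isHermitian (F.ρ i) (F.irr i).unit hμ) (1 - ε / 8))ᴴ with hP
  have h1 := card_exists_le (X := Fin K → Alt n)
    (fun (i : Fin F.c) y => ¬ GoodL (lett (F.ρ i) y) (P i) Lam lam (2 * h)) _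
    (fun i => goodL_count (F.irr i) (by omega) hKpos (topProj_posSemidef _ _) (by linarith)
      (2 * h))
  rw [Fintype.card_fin] at h1
  refine le_trans ?_ h1
  have h2 : ∀ y : Fin K → Alt n, ¬ Good F (mixW (tupW x) (tupW y)) n (ε / 8000) →
      ∃ i : Fin F.c, ¬ GoodL (lett (F.ρ i) y) (P i) Lam lam (2 * h) := by
    intro y hy
    by_contra hcon
    push Not at hcon
    apply hy
    intro i hi _
    have hcard := density_bound F (tupW x) hμ ε hε0 hε1 p hgood hL r hr hrp hp hn i hi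
    have h3 := one_rep (F.irr i) hμ y hh hK (ε / 8) (by linarith) (by linarith) hLam0 hlam
      hcard (hcon i) (by
        refine lt_of_le_of_lt ?_ hnum
        have h4 := log_dim_le F (by omega) i
        have h5 : Real.log (F.D i) / (Lam * 2 ^ h) ≤ 2 * n * Real.log n / (Lam * 2 ^ h) := by
          gcongr
        have h6 := Real.sqrt_le_sqrt (add_le_add_left h5 (Real.log (2 * lam) / Lam))
        linarith)
    rw [show ε / 8 / 1000 = ε / 8000 by ring] at h3
    exact h3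
  exact_mod_cast card_mono h2

theorem add_wop (F : PW (Perm (Fin n))) (i : Fin F.c) {K : ℕ} (hK : 0 < K)
    (z : Fin (K + K) → Alt n) : wop (F.ρ i) (tupW z) =
      wop (F.ρ i) (mixW (tupW fun j => z (Fin.castAdd K j)) (tupW fun j => z (Fin.natAdd K j))) := by
  have hu := (F.irr i).unit
  rw [wop_mixW, wop_tupW _ hu, wop_tupW _ hu, wop_tupW _ hu]
  unfold avgRe
  rw [Fin.sum_univ_add, ← smul_add, smul_smul]
  congr 1
  push_cast
  have : (K : ℝ) ≠ 0 := by positivity
  field_simp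
  ring

/-- the count for `2 K` elements -/
theorem two_blocks (F : PW (Perm (Fin n))) {K p : ℕ} (hK : 0 < K) (ε ε' a b : ℝ) (hb0 : 0 ≤ b)
    (ha : (Nat.card {x : Fin K → Alt n // ¬ Good F (tupW x) p ε} : ℝ) ≤
      (Fintype.card (Alt n) : ℝ) ^ K * a)
    (hb : ∀ x : Fin K → Alt n, Good F (tupW x) p ε →
      (Nat.card {y : Fin K → Alt n // ¬ Good F (mixW (tupW x) (tupW y)) n ε'} : ℝ) ≤
        (Fintype.card (Alt n) : ℝ) ^ K * b) :
    (Nat.card {z : Fin (K + K) → Alt n // ¬ Good F (tupW z) n ε'} : ℝ) ≤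
      (Fintype.card (Alt n) : ℝ) ^ (K + K) * (a + b) := by
  have hcard : (Fintype.card (Fin K → Alt n) : ℝ) = (Fintype.card (Alt n) : ℝ) ^ K := by
    rw [Fintype.card_fun, Fintype.card_fin]
    push_cast
    rfl
  have h1 := two_count (Z := Fin K → Alt n) (Y := Fin K → Alt n)
    (fun x => Good F (tupW x) p ε) (fun x y => Good F (mixW (tupW x) (tupW y)) n ε') a b hb0
    (by rw [hcard]; exact ha) (fun x hx => by rw [hcard]; exact hb x hx)
  rw [hcard, ← pow_add] at h1
  refine le_trans ?_ h1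
  have h2 : Nat.card {z : Fin (K + K) → Alt n // ¬ Good F (tupW z) n ε'} ≤
      Nat.card {t : (Fin K → Alt n) × (Fin K → Alt n) //
        ¬ (Good F (tupW t.1) p ε ∧ Good F (mixW (tupW t.1) (tupW t.2)) n ε')} := by
    refine Nat.card_le_card_of_injective (fun z => ⟨(fun j => z.1 (Fin.castAdd K j),
      fun j => z.1 (Fin.natAdd K j)), fun h => z.2 ?_⟩) ?_
    · intro i hi hf
      rw [add_wop F i hK]
      exact h.2 i hi hf
    · rintro ⟨w, hw⟩ ⟨v, hv⟩ h
      simp only [Subtype.mk.injEq, Prod.mk.injEq] at h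
      obtain ⟨h3, h4⟩ := h
      refine Subtype.ext (funext fun l => ?_)
      refine Fin.addCases (fun a => ?_) (fun b => ?_) l
      · exact congrFun h3 a
      · exact congrFun h4 b
  exact_mod_cast h2

end Pool.Agent.Helper6.E
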