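import Pool.Agent.Helper6.E.Mix

/-! The numerical conditions. -/

set_option linter.unusedSectionVars false

namespace Pool.Agent.Helper6.E

open Filter Topology Pool.Agent.Helper6.W

theorem ev_poly {b : ℝ} (hb : 0 < b) (C : ℝ) (m : ℕ) :
    ∀ᶠ L : ℝ in atTop, C * L ^ m ≤ Real.exp (b * L) := by
  have h1 := isLittleO_pow_exp_pos_mul_atTop m hb
  have h2 := h1.def (show (0 : ℝ) < (|C| + 1)⁻¹ by positivity)
  filter_upwards [h2, eventually_ge_atTop 0] with L hL hL0
  rw [Real.norm_of_nonneg (by positivity), Real.norm_of_nonneg (Real.exp_pos _).le,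
    ← div_eq_inv_mul, le_div_iff₀ (by positivity)] at hL
  have h3 : C * L ^ m ≤ L ^ m * (|C| + 1) := by
    have h4 : C ≤ |C| + 1 := by linarith [le_abs_self C]
    have h5 : 0 ≤ L ^ m := by positivity
    nlinarith
  linarith

/-- the number of letters in the lists is `2 * hh e n` -/
noncomputable def hh (e : ℝ) (n : ℕ) : ℕ := ⌊e / 64 * Real.log n⌋₊

/-- the level of the base -/
noncomputable def pp (e : ℝ) (n : ℕ) : ℕ := lv n (1 - e / 2000)

/-- the density exponent of the base -/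
noncomputable def rr (e : ℝ) (n : ℕ) : ℕ := ⌊(pp e n : ℝ) / (400 * Real.log n ^ 2)⌋₊

/-- the loss -/
noncomputable def lamE (n : ℕ) : ℝ := Real.exp (Real.exp (3 / 4 * Real.log n))

structure NumOK (e : ℝ) (n : ℕ) : Prop where
  hpos : 0 < hh e n
  L24 : 24 ≤ Real.log n
  rpos : 1 ≤ rr e n
  rp : 400 * Real.log n ^ 2 * rr e n ≤ pp e n
  pn : 16 * (pp e n + 1) ≤ n
  n1000 : 1000 ≤ n
  lam1 : 1 ≤ lamE n
  num : (1 / 4) ^ hh e n + Real.sqrt (2 * n * Real.log n /
      (rr e n * Real.log n / 2 * 2 ^ hh e n) +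
      Real.log (2 * lamE n) / (rr e n * Real.log n / 2)) < (81 / 100) ^ hh e n
  union : ((n : ℝ) + 1) ^ (2 * (Nat.sqrt n + 1)) * (((2 * hh e n : ℕ) : ℝ) *
      ((2 * ((32 * hh e n : ℕ) : ℝ)) ^ (2 * hh e n) * (2 / lamE n))) ≤ 1 / n
  size : ((32 * hh e n + 32 * hh e n : ℕ) : ℝ) ≤ e * Real.log n

theorem exp_quarter_le : Real.exp (1 / 4) ≤ 6561 / 5000 := by
  have h1 : Real.exp (1 / 4) ^ 4 = Real.exp 1 := by rw [← Real.exp_nat_mul]; norm_num
  by_contra hcon
  rw [not_le] at hcon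
  have h2 : ((6561 : ℝ) / 5000) ^ 4 < Real.exp (1 / 4) ^ 4 :=
    pow_lt_pow_left₀ hcon (by norm_num) (by norm_num)
  rw [h1] at h2
  have := Real.exp_one_lt_d9
  norm_num at h2 this
  linarith

theorem exp_neg_half_le : Real.exp (-(1 / 2)) ≤ 6561 / 10000 := by
  have h1 : Real.exp (-(1 / 2)) ^ 2 = (Real.exp 1)⁻¹ := by
    rw [← Real.exp_nat_mul, ← Real.exp_neg]; norm_num
  by_contra hcon
  rw [not_le] at hcon
  have h2 : ((6561 : ℝ) / 10000) ^ 2 < Real.exp (-(1 / 2)) ^ 2 :=
    pow_lt_pow_left₀ hcon (by norm_num) (by norm_num)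
  rw [h1] at h2
  have h3 := Real.exp_one_gt_d9
  have h4 : (Real.exp 1)⁻¹ < (2.7182818283 : ℝ)⁻¹ := by
    exact inv_strictAnti₀ (by norm_num) h3
  norm_num at h2 h4
  linarith

/-- the square root condition -/
theorem sqrt_num {L δ : ℝ} {h : ℕ} {Lam lam N : ℝ} (hh0 : 0 < h) (hL : 1 ≤ L)
    (hN : N = Real.exp L) (hlam : lam = Real.exp (Real.exp (3 / 4 * L)))
    (hδ8 : 2 * δ ≤ 1 / 8)
    (hLam : Real.exp ((1 - 2 * δ) * L) ≤ Lam) (hhi : (h : ℝ) ≤ L / 64)
    (h1 : 64 * L * Real.exp (2 * δ * L) * Real.exp (1 / 4) ≤ 2 * Real.exp (((h : ℝ) + 1) / 4))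
    (h2 : 32 ≤ Real.exp (15 / 128 * L)) :
    (1 / 4) ^ h + Real.sqrt (2 * N * L / (Lam * 2 ^ h) + Real.log (2 * lam) / Lam) <
      (81 / 100) ^ h := by
  have hLam0 : 0 < Lam := lt_of_lt_of_le (Real.exp_pos _) hLam
  -- second term
  have hb : Real.log (2 * lam) / Lam ≤ 2 * Real.exp (-(L / 8)) := by
    rw [div_le_iff₀ hLam0, hlam, Real.log_mul (by norm_num) (Real.exp_pos _).ne', Real.log_exp]
    have h3 : Real.log 2 ≤ Real.exp (3 / 4 * L) := by
      have h4 : Real.log 2 ≤ 1 := by linarith [Real.log_two_lt_d9]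
      exact h4.trans (Real.one_le_exp (by positivity))
    have h4 : Real.exp (3 / 4 * L) ≤ Real.exp (-(L / 8)) * Lam := by
      calc Real.exp (3 / 4 * L) ≤ Real.exp (-(L / 8)) * Real.exp ((1 - 2 * δ) * L) := by
            rw [← Real.exp_add]
            apply Real.exp_le_exp.2
            nlinarith
        _ ≤ _ := by gcongr
    nlinarith
  -- first term
  have ha : 2 * N * L / (Lam * 2 ^ h) ≤ 2 * L * Real.exp (2 * δ * L) / 2 ^ h := by
    rw [div_le_div_iff₀ (by positivity) (by positivity), hN]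
    have h3 : Real.exp L ≤ Real.exp (2 * δ * L) * Lam := by
      calc Real.exp L = Real.exp (2 * δ * L) * Real.exp ((1 - 2 * δ) * L) := by
            rw [← Real.exp_add]; congr 1; ring
        _ ≤ _ := by gcongr
    calc 2 * Real.exp L * L * 2 ^ h ≤ 2 * (Real.exp (2 * δ * L) * Lam) * L * 2 ^ h := by gcongr
      _ = _ := by ring
  -- powers
  have hA : Real.exp ((h : ℝ) / 4) ≤ (6561 / 5000) ^ h := by
    calc Real.exp ((h : ℝ) / 4) = Real.exp (1 / 4) ^ h := by
          rw [← Real.exp_nat_mul]; congr 1; ring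
      _ ≤ _ := pow_le_pow_left₀ (Real.exp_pos _).le exp_quarter_le h
  have hB : Real.exp (-(L / 128)) ≤ (6561 / 10000) ^ h := by
    calc Real.exp (-(L / 128)) ≤ Real.exp (-((h : ℝ) / 2)) := by
          apply Real.exp_le_exp.2; linarith
      _ = Real.exp (-(1 / 2)) ^ h := by rw [← Real.exp_nat_mul]; congr 1; ring
      _ ≤ _ := pow_le_pow_left₀ (Real.exp_pos _).le exp_neg_half_le h
  have ha2 : 2 * L * Real.exp (2 * δ * L) / 2 ^ h ≤ (6561 / 10000) ^ h / 16 := by
    rw [div_le_div_iff₀ (by positivity) (by norm_num)]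
    have h3 : ((6561 : ℝ) / 10000) ^ h * 2 ^ h = (6561 / 5000) ^ h := by
      rw [← mul_pow]; norm_num
    rw [h3]
    refine le_trans ?_ hA
    have h4 : Real.exp (((h : ℝ) + 1) / 4) = Real.exp ((h : ℝ) / 4) * Real.exp (1 / 4) := by
      rw [← Real.exp_add]; congr 1; ring
    rw [h4] at h1
    have h5 : 64 * L * Real.exp (2 * δ * L) ≤ 2 * Real.exp ((h : ℝ) / 4) := by
      have h6 : 64 * L * Real.exp (2 * δ * L) * Real.exp (1 / 4) ≤
          2 * Real.exp ((h : ℝ) / 4) * Real.exp (1 / 4) := by linarith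
      exact le_of_mul_le_mul_right h6 (Real.exp_pos _)
    linarith
  have hb2 : 2 * Real.exp (-(L / 8)) ≤ (6561 / 10000) ^ h / 16 := by
    have h3 : 32 * Real.exp (-(L / 8)) ≤ Real.exp (-(L / 128)) := by
      calc 32 * Real.exp (-(L / 8)) ≤ Real.exp (15 / 128 * L) * Real.exp (-(L / 8)) := by gcongr
        _ = Real.exp (-(L / 128)) := by rw [← Real.exp_add]; congr 1; ring
    linarith
  set Q : ℝ := (81 / 100) ^ h with hQ
  have hQ0 : 0 < Q := by positivity
  have hQ2 : ((6561 : ℝ) / 10000) ^ h = Q ^ 2 := by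
    rw [hQ, ← pow_mul, mul_comm h 2, pow_mul]; norm_num
  rw [hQ2] at ha2 hb2
  have hx : 2 * N * L / (Lam * 2 ^ h) + Real.log (2 * lam) / Lam ≤ (Q * (3 / 5)) ^ 2 := by
    have : (Q * (3 / 5)) ^ 2 = Q ^ 2 * (9 / 25) := by ring
    rw [this]
    have : 0 ≤ Q ^ 2 := by positivity
    linarith
  have hs : Real.sqrt (2 * N * L / (Lam * 2 ^ h) + Real.log (2 * lam) / Lam) ≤ Q * (3 / 5) := by
    calc _ ≤ Real.sqrt ((Q * (3 / 5)) ^ 2) := Real.sqrt_le_sqrt hx
      _ = Q * (3 / 5) := Real.sqrt_sq (by positivity)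
  have hq : ((1 : ℝ) / 4) ^ h ≤ Q * (25 / 81) := by
    have h3 : ((1 : ℝ) / 4) ^ h = Q * (25 / 81) ^ h := by
      rw [hQ, ← mul_pow]; norm_num
    rw [h3]
    refine mul_le_mul_of_nonneg_left ?_ hQ0.le
    exact pow_le_of_le_one (by norm_num) (by norm_num) hh0.ne'
  nlinarith

theorem numOK {e : ℝ} (he : 0 < e) (he1 : e ≤ 1) : ∀ᶠ n : ℕ in atTop, NumOK e n := by
  have hδ : 0 < e / 2000 := by positivity
  have t := tendsto_log_nat
  have e1 : ∀ᶠ n : ℕ in atTop, 3200 * Real.log n ≤ Real.exp (e / 2000 * Real.log n) := by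
    filter_upwards [t.eventually (ev_poly hδ 3200 1)] with n hn
    simpa using hn
  have e2 : ∀ᶠ n : ℕ in atTop, 64 * 2 * Real.log n ≤
      Real.exp ((e / 256 - e / 1000) * Real.log n) := by
    filter_upwards [t.eventually (ev_poly (show 0 < e / 256 - e / 1000 by linarith) (64 * 2) 1)]
      with n hn
    simpa using hn
  have e3 : ∀ᶠ n : ℕ in atTop, 8 * Real.log n ≤ Real.exp (1 / 8 * Real.log n) := by
    filter_upwards [t.eventually (ev_poly (show (0 : ℝ) < 1 / 8 by norm_num) 8 1)] with n hn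
    simpa using hn
  have e4 : ∀ᶠ n : ℕ in atTop, 4 * Real.log n ^ 2 ≤ Real.exp (5 / 8 * Real.log n) :=
    t.eventually (ev_poly (show (0 : ℝ) < 5 / 8 by norm_num) 4 2)
  filter_upwards [e1, e2, e3, e4, t.eventually_ge_atTop 1000, eventually_ge_atTop 1000,
    t.eventually_ge_atTop (128 / e), t.eventually (ev_exp (show (0 : ℝ) < 15 / 128 by norm_num) 32)]
    with n e1 e2 e3 e4 hL hn hLe e5
  set L := Real.log n with hLdef
  have hn0 : (0 : ℝ) < n := by
    have : 0 < n := by omega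
    exact_mod_cast this
  have hexp : Real.exp L = n := Real.exp_log hn0
  have hhi : (hh e n : ℝ) ≤ e / 64 * L := Nat.floor_le (by positivity)
  have hhi' : (hh e n : ℝ) ≤ L / 64 := by
    refine hhi.trans ?_
    have : e * L ≤ 1 * L := mul_le_mul_of_nonneg_right he1 (by linarith)
    linarith
  have hlo : e / 64 * L < hh e n + 1 := Nat.lt_floor_add_one _
  have hpos : 0 < hh e n := by
    rw [hh, Nat.floor_pos, ← hLdef]
    rw [div_le_iff₀ he] at hLe
    linarith
  have phi : (pp e n : ℝ) ≤ Real.exp ((1 - e / 2000) * L) := lv_le n _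
  have plo : Real.exp ((1 - e / 2000) * L) < pp e n + 1 := Nat.lt_floor_add_one _
  set E1 := Real.exp ((1 - e / 2000) * L) with hE1
  have hδ1 : e / 2000 ≤ 1 / 2000 := by linarith
  -- sizes
  have hE1big : 3200 * L ^ 2 ≤ E1 := by
    have h1 : Real.exp (e / 2000 * L) * Real.exp (e / 2000 * L) ≤ E1 := by
      rw [hE1, ← Real.exp_add]
      apply Real.exp_le_exp.2
      nlinarith
    have h2 : (3200 * L) * (3200 * L) ≤
        Real.exp (e / 2000 * L) * Real.exp (e / 2000 * L) := by gcongr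
    nlinarith
  have hpn : 16 * ((pp e n : ℝ) + 1) ≤ n := by
    have h1 : E1 * Real.exp (e / 2000 * L) = n := by
      rw [hE1, ← Real.exp_add, ← hexp]; congr 1; ring
    have h2 : (32 : ℝ) ≤ Real.exp (e / 2000 * L) := by linarith
    have h3 : (1 : ℝ) ≤ E1 := by nlinarith
    nlinarith
  have rhi : (rr e n : ℝ) ≤ (pp e n : ℝ) / (400 * L ^ 2) := Nat.floor_le (by positivity)
  have rlo : (pp e n : ℝ) / (400 * L ^ 2) < rr e n + 1 := Nat.lt_floor_add_one _
  have rlo2 : E1 / (1600 * L ^ 2) ≤ rr e n := by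
    have h1 : E1 / 2 ≤ pp e n := by nlinarith
    have h2 : E1 / (800 * L ^ 2) ≤ (pp e n : ℝ) / (400 * L ^ 2) := by
      calc E1 / (800 * L ^ 2) = E1 / 2 / (400 * L ^ 2) := by field_simp; ring
        _ ≤ _ := by gcongr
    have h3 : 1 ≤ E1 / (1600 * L ^ 2) := by
      rw [one_le_div (by positivity)]; nlinarith
    have h4 : E1 / (800 * L ^ 2) = 2 * (E1 / (1600 * L ^ 2)) := by field_simp; ring
    linarith
  have hLamlo : Real.exp ((1 - 2 * (e / 2000)) * L) ≤ rr e n * L / 2 := by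
    have h1 : Real.exp ((1 - 2 * (e / 2000)) * L) * (3200 * L) ≤ E1 := by
      calc Real.exp ((1 - 2 * (e / 2000)) * L) * (3200 * L) ≤
          Real.exp ((1 - 2 * (e / 2000)) * L) * Real.exp (e / 2000 * L) := by gcongr
        _ = E1 := by rw [hE1, ← Real.exp_add]; congr 1; ring
    have h2 : E1 / (3200 * L) ≤ rr e n * L / 2 := by
      calc E1 / (3200 * L) = E1 / (1600 * L ^ 2) * L / 2 := by field_simp; ring
        _ ≤ _ := by gcongr
    refine le_trans ?_ h2
    rw [le_div_iff₀ (by positivity)]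
    exact h1
  have hr1 : 1 ≤ rr e n := by
    have h1 : (0 : ℝ) < rr e n := lt_of_lt_of_le (by positivity) rlo2
    exact_mod_cast h1
  refine ⟨hpos, by linarith, hr1, ?_, by exact_mod_cast hpn, hn,
    Real.one_le_exp (Real.exp_pos _).le, ?_, ?_, ?_⟩
  · rw [le_div_iff₀ (by positivity)] at rhi
    linarith
  · refine sqrt_num (δ := e / 2000) hpos (by linarith) hexp.symm rfl (by linarith) hLamlo hhi' ?_
      e5
    have h1 : Real.exp (1 / 4) ≤ 2 := exp_quarter_le.trans (by norm_num)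
    have h2 : Real.exp (e / 256 * L) ≤ Real.exp (((hh e n : ℝ) + 1) / 4) := by
      apply Real.exp_le_exp.2
      linarith
    have h3 : Real.exp ((e / 256 - e / 1000) * L) * Real.exp (2 * (e / 2000) * L) =
        Real.exp (e / 256 * L) := by
      rw [← Real.exp_add]; congr 1; ring
    have h4 : 64 * 2 * L * Real.exp (2 * (e / 2000) * L) ≤ Real.exp (e / 256 * L) := by
      rw [← h3]; gcongr
    have h5 : 0 < Real.exp (2 * (e / 2000) * L) := Real.exp_pos _
    have h6 : 64 * L * Real.exp (2 * (e / 2000) * L) * Real.exp (1 / 4) ≤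
        64 * L * Real.exp (2 * (e / 2000) * L) * 2 := by gcongr
    have h7 := Real.exp_pos (((hh e n : ℝ) + 1) / 4)
    linarith
  · -- the union bound
    have hs : ((Nat.sqrt n : ℕ) : ℝ) ≤ Real.exp (L / 2) := by
      have h1 : ((Nat.sqrt n : ℕ) : ℝ) ^ 2 ≤ Real.exp (L / 2) ^ 2 := by
        have h2 : Nat.sqrt n ^ 2 ≤ n := Nat.sqrt_le' n
        have h3 : Real.exp (L / 2) ^ 2 = n := by
          rw [← Real.exp_nat_mul, ← hexp]; congr 1; push_cast; ring
        rw [h3]
        exact_mod_cast h2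
      exact (pow_le_pow_iff_left₀ (Nat.cast_nonneg _) (Real.exp_pos _).le (by norm_num)).1 h1
    have hE2 : 1 ≤ Real.exp (L / 2) := Real.one_le_exp (by linarith)
    have h1 : ((n : ℝ) + 1) ^ (2 * (Nat.sqrt n + 1)) ≤ Real.exp (8 * L * Real.exp (L / 2)) := by
      have h2 : (n : ℝ) + 1 ≤ Real.exp (2 * L) := by
        have h3 : Real.exp (2 * L) = n * n := by
          rw [← hexp, ← Real.exp_add]; congr 1; ring
        rw [h3]
        have : (2 : ℝ) ≤ n := by
          have : 2 ≤ n := by omega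
          exact_mod_cast this
        nlinarith
      calc ((n : ℝ) + 1) ^ (2 * (Nat.sqrt n + 1)) ≤
          Real.exp (2 * L) ^ (2 * (Nat.sqrt n + 1)) := pow_le_pow_left₀ (by positivity) h2 _
        _ = Real.exp (((2 * (Nat.sqrt n + 1) : ℕ) : ℝ) * (2 * L)) := by rw [← Real.exp_nat_mul]
        _ ≤ _ := by
            apply Real.exp_le_exp.2
            push_cast
            nlinarith
    have h2 : ((2 * hh e n : ℕ) : ℝ) ≤ Real.exp L := by
      push_cast
      have := Real.add_one_le_exp L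
      linarith
    have h3 : (2 * ((32 * hh e n : ℕ) : ℝ)) ^ (2 * hh e n) ≤ Real.exp (L ^ 2) := by
      have h4 : (2 * ((32 * hh e n : ℕ) : ℝ)) ≤ Real.exp L := by
        push_cast
        have := Real.add_one_le_exp L
        linarith
      calc (2 * ((32 * hh e n : ℕ) : ℝ)) ^ (2 * hh e n) ≤ Real.exp L ^ (2 * hh e n) :=
            pow_le_pow_left₀ (by positivity) h4 _
        _ = Real.exp (((2 * hh e n : ℕ) : ℝ) * L) := by rw [← Real.exp_nat_mul]
        _ ≤ _ := by
            apply Real.exp_le_exp.2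
            push_cast
            nlinarith
    have h5 : 2 / lamE n ≤ Real.exp (1 - Real.exp (3 / 4 * L)) := by
      unfold lamE
      rw [← hLdef, Real.exp_sub]
      have : (2 : ℝ) ≤ Real.exp 1 := by linarith [Real.add_one_le_exp 1]
      gcongr
    have h6 : 0 ≤ 2 / lamE n := by unfold lamE; positivity
    calc ((n : ℝ) + 1) ^ (2 * (Nat.sqrt n + 1)) * (((2 * hh e n : ℕ) : ℝ) *
          ((2 * ((32 * hh e n : ℕ) : ℝ)) ^ (2 * hh e n) * (2 / lamE n))) ≤
        Real.exp (8 * L * Real.exp (L / 2)) * (Real.exp L * (Real.exp (L ^ 2) *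
          Real.exp (1 - Real.exp (3 / 4 * L)))) := by gcongr
      _ = Real.exp (8 * L * Real.exp (L / 2) + (L + (L ^ 2 + (1 - Real.exp (3 / 4 * L))))) := by
          rw [Real.exp_add, Real.exp_add, Real.exp_add]
      _ ≤ Real.exp (-L) := by
          apply Real.exp_le_exp.2
          have h7 : 8 * L * Real.exp (L / 2) ≤ Real.exp (5 / 8 * L) := by
            calc 8 * L * Real.exp (L / 2) ≤ Real.exp (1 / 8 * L) * Real.exp (L / 2) := by gcongr
              _ = Real.exp (5 / 8 * L) := by rw [← Real.exp_add]; congr 1; ring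
          have h8 : 2 * Real.exp (5 / 8 * L) ≤ Real.exp (3 / 4 * L) := by
            calc 2 * Real.exp (5 / 8 * L) ≤ Real.exp (1 / 8 * L) * Real.exp (5 / 8 * L) := by
                  gcongr
                  linarith
              _ = Real.exp (3 / 4 * L) := by rw [← Real.exp_add]; congr 1; ring
          nlinarith
      _ = 1 / n := by rw [Real.exp_neg, hexp]; ring
  · push_cast
    linarith

end Pool.Agent.Helper6.E
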