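import Pool.Agent.Helper6.E.GL

/-! Probability of the good event. -/

set_option linter.unusedSectionVars false

namespace Pool.Agent.Helper6.E

open Matrix Equiv Pool.Agent.Helper15.An
open scoped ComplexOrder

/-- union bound over a finite type -/
theorem card_exists_le {X I : Type} [Fintype X] [Fintype I] (B : I → X → Prop) (c : ℝ)
    (h : ∀ i, (Nat.card {x : X // B i x} : ℝ) ≤ c) :
    (Nat.card {x : X // ∃ i, B i x} : ℝ) ≤ Fintype.card I * c := by
  classical
  have h1 : Nat.card {x : X // ∃ i, B i x} ≤ ∑ i, Nat.card {x : X // B i x} := by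
    simp only [Nat.card_eq_fintype_card, Fintype.card_subtype]
    have h2 : (Finset.univ.filter fun x : X => ∃ i, B i x) ⊆
        Finset.univ.biUnion fun i => Finset.univ.filter fun x : X => B i x := by
      intro x hx
      obtain ⟨i, hi⟩ := (Finset.mem_filter.1 hx).2
      exact Finset.mem_biUnion.2 ⟨i, Finset.mem_univ _, Finset.mem_filter.2
        ⟨Finset.mem_univ _, hi⟩⟩
    exact (Finset.card_le_card h2).trans Finset.card_biUnion_le
  calc (Nat.card {x : X // ∃ i, B i x} : ℝ) ≤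
      ((∑ i, Nat.card {x : X // B i x} : ℕ) : ℝ) := by exact_mod_cast h1
    _ = ∑ i, (Nat.card {x : X // B i x} : ℝ) := by push_cast; rfl
    _ ≤ ∑ _i : I, c := Finset.sum_le_sum fun i _ => h i
    _ = Fintype.card I * c := by rw [Finset.sum_const, Finset.card_univ, nsmul_eq_mul]

theorem card_mono {X : Type} [Finite X] {A B : X → Prop} (h : ∀ x, A x → B x) :
    Nat.card {x : X // A x} ≤ Nat.card {x : X // B x} :=
  Nat.card_le_card_of_injective (fun x => ⟨x.1, h x.1 x.2⟩) (by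
    intro x y hxy
    have := congrArg Subtype.val hxy
    exact Subtype.ext this)

/-- Markov -/
theorem markov {X : Type} [Fintype X] (f : X → ℝ) (hf : ∀ x, 0 ≤ f x) (s t : ℝ)
    (hs : ∑ x, f x ≤ s) : (Nat.card {x : X // ¬ f x ≤ t} : ℝ) * t ≤ s := by
  classical
  rw [Nat.card_eq_fintype_card, Fintype.card_subtype, ← nsmul_eq_mul]
  refine le_trans ?_ hs
  refine (Finset.card_nsmul_le_sum _ f _ fun x hx => ?_).trans
    (Finset.sum_le_sum_of_subset_of_nonneg (Finset.filter_subset _ _) fun x _ _ => hf x)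
  exact (not_le.1 (Finset.mem_filter.1 hx).2).le

section irr
variable {n D K : ℕ} {ρ : Perm (Fin n) →* Matrix (Fin D) (Fin D) ℂ}

theorem nest_congr {d ι : Type} [Fintype d] [DecidableEq d] {u u' : ι → Matrix d d ℂ}
    (P : Matrix d d ℂ) (l : List ι) (h : ∀ a ∈ l, u a = u' a) : nest u P l = nest u' P l := by
  induction l with
  | nil => rfl
  | cons a l ih =>
    rw [nest, nest, ih fun b hb => h b (List.mem_cons_of_mem _ hb), h a List.mem_cons_self]

theorem design' (hρ : IsIrr ρ) (hn : 2 ≤ n) (b : Bool) (M : Matrix (Fin D) (Fin D) ℂ)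
    (hM : M.PosSemidef) :
    ((2 * (Fintype.card (Alt n) : ℝ) * (trace M).re / Fintype.card (Fin D)) •
      (1 : Matrix (Fin D) (Fin D) ℂ) -
      ∑ ω : Alt n, (if b then ρ (ω : Perm (Fin n)) else (ρ (ω : Perm (Fin n)))ᴴ)ᴴ * M *
        (if b then ρ (ω : Perm (Fin n)) else (ρ (ω : Perm (Fin n)))ᴴ)).PosSemidef := by
  cases b with
  | true => simpa using design hρ (Alt n) (card_Alt hn) M hM
  | false =>
    have h4 := design hρ (Alt n) (card_Alt hn) M hM
    convert h4 using 2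
    rw [← Equiv.sum_comp (Equiv.inv (Alt n))
      (fun ω : Alt n => (ρ (ω : Perm (Fin n)))ᴴ * M * ρ (ω : Perm (Fin n)))]
    refine Finset.sum_congr rfl fun ω _ => ?_
    rw [rho_conj ρ hρ.unit]
    simp [rho_conj ρ hρ.unit]

/-- one list, one fresh letter -/
theorem one_step (hρ : IsIrr ρ) (hn : 2 ≤ n) {P : Matrix (Fin D) (Fin D) ℂ} (hP : P.PosSemidef)
    {lam : ℝ} (hlam : 0 < lam) (l : List (Fin K × Bool)) (a : Fin K × Bool)
    (ha : a.1 ∉ l.map Prod.fst) (t : ℝ) :
    (Nat.card {y : Fin K → Alt n // ¬ tre (nest (lett ρ y) P (a :: l)) (2 * t) ≤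
      lam * (tre (nest (lett ρ y) P l) t) ^ 2 / Fintype.card (Fin D)} : ℝ) ≤
      2 / lam * (Fintype.card (Alt n) : ℝ) ^ K := by
  refine fresh a.1 _ _ fun x => ?_
  have hcardD : 0 < Fintype.card (Fin D) := by rw [Fintype.card_fin]; exact hρ.pos
  have hD : (0 : ℝ) < Fintype.card (Fin D) := by exact_mod_cast hcardD
  set X := nest (lett ρ x) P l with hX
  have hXh : X.IsHermitian := (nest_posSemidef _ hP l).isHermitian
  have hsame : ∀ y : Alt n, nest (lett ρ (Function.update x a.1 y)) P l = X := by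
    intro y
    refine nest_congr P l fun b hb => ?_
    have hne : b.1 ≠ a.1 := fun h => ha (h ▸ List.mem_map_of_mem hb)
    unfold lett
    rw [Function.update_of_ne hne]
  set g : Alt n → Matrix (Fin D) (Fin D) ℂ :=
    fun y => if a.2 then ρ (y : Perm (Fin n)) else (ρ (y : Perm (Fin n)))ᴴ with hg
  have hgu : ∀ y, (g y)ᴴ * g y = 1 := by
    intro y
    have := lett_unit hρ.unit (fun _ : Fin 1 => y) (0, a.2)
    simpa [lett, hg] using this
  have hstep : ∀ y : Alt n, nest (lett ρ (Function.update x a.1 y)) P (a :: l) =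
      (1 / 2 : ℝ) • (X + (g y)ᴴ * X * g y) := by
    intro y
    rw [nest, hsame]
    have : lett ρ (Function.update x a.1 y) a = g y := by
      unfold lett
      rw [Function.update_self]
    rw [this]
  have h1 := tre_fresh g hgu hcardD (fun M hM => design' hρ hn a.2 M hM) hXh t
  have hpos : 0 < tre X t := tre_pos hXh hcardD t
  have hs : 0 < lam * (tre X t) ^ 2 / Fintype.card (Fin D) := by positivity
  have h2 := markov (fun y : Alt n => tre ((1 / 2 : ℝ) • (X + (g y)ᴴ * X * g y)) (2 * t))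
    (fun y => tre_nonneg (by
      have h3 := ((nest_posSemidef (lett ρ x) hP l).add
        ((nest_posSemidef (lett ρ x) hP l).conjTranspose_mul_mul_same (g y))).smul
          (show (0 : ℝ) ≤ 1 / 2 by norm_num)
      exact h3.isHermitian) _) _ (lam * (tre X t) ^ 2 / Fintype.card (Fin D)) h1
  have h3 : (Nat.card {y : Alt n // ¬ tre (nest (lett ρ (Function.update x a.1 y)) P (a :: l))
      (2 * t) ≤ lam * (tre (nest (lett ρ (Function.update x a.1 y)) P l) t) ^ 2 /
        Fintype.card (Fin D)} : ℝ) =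
      Nat.card {y : Alt n // ¬ tre ((1 / 2 : ℝ) • (X + (g y)ᴴ * X * g y)) (2 * t) ≤
        lam * (tre X t) ^ 2 / Fintype.card (Fin D)} := by
    simp_rw [hstep, hsame]
  rw [h3]
  have h4 : (2 * (Fintype.card (Alt n) : ℝ) * (tre X t) ^ 2 / Fintype.card (Fin D)) =
      (2 / lam * Fintype.card (Alt n)) * (lam * (tre X t) ^ 2 / Fintype.card (Fin D)) := by
    field_simp
  rw [h4] at h2
  exact le_of_mul_le_mul_right h2 hs

/-- failure for one list and one letter -/
def Bad (ρ : Perm (Fin n) →* Matrix (Fin D) (Fin D) ℂ) (P : Matrix (Fin D) (Fin D) ℂ)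
    (Lam lam : ℝ) (l : List (Fin K × Bool)) (a : Fin K × Bool) (y : Fin K → Alt n) : Prop :=
  a.1 ∉ l.map Prod.fst ∧
    ¬ tre (nest (lett ρ y) P (a :: l)) (2 * (Lam * 2 ^ fr l)) ≤
      lam * (tre (nest (lett ρ y) P l) (Lam * 2 ^ fr l)) ^ 2 / Fintype.card (Fin D)

theorem bad_count (hρ : IsIrr ρ) (hn : 2 ≤ n) {P : Matrix (Fin D) (Fin D) ℂ}
    (hP : P.PosSemidef) {Lam lam : ℝ} (hlam : 0 < lam) (l : List (Fin K × Bool))
    (a : Fin K × Bool) : (Nat.card {y : Fin K → Alt n // Bad ρ P Lam lam l a y} : ℝ) ≤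
      2 / lam * (Fintype.card (Alt n) : ℝ) ^ K := by
  by_cases ha : a.1 ∉ l.map Prod.fst
  · have h2 := one_step hρ hn hP hlam l a ha (Lam * 2 ^ fr l)
    refine le_trans ?_ h2
    have h3 : Nat.card {y : Fin K → Alt n // Bad ρ P Lam lam l a y} ≤
        Nat.card {y : Fin K → Alt n // ¬ tre (nest (lett ρ y) P (a :: l)) (2 * (Lam * 2 ^ fr l)) ≤
      lam * (tre (nest (lett ρ y) P l) (Lam * 2 ^ fr l)) ^ 2 / Fintype.card (Fin D)} :=
      card_mono (A := fun y => Bad ρ P Lam lam l a y) (fun y (hy : Bad ρ P Lam lam l a y) => hy.2)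
    exact_mod_cast h3
  · have h3 : Nat.card {y : Fin K → Alt n // Bad ρ P Lam lam l a y} = 0 := by
      rw [Nat.card_eq_zero]
      left
      exact ⟨fun y => ha y.2.1⟩
    rw [h3, Nat.cast_zero]
    positivity

/-- failure for one length -/
def BadJ (ρ : Perm (Fin n) →* Matrix (Fin D) (Fin D) ℂ) (P : Matrix (Fin D) (Fin D) ℂ)
    (Lam lam : ℝ) (j : ℕ) (y : Fin K → Alt n) : Prop :=
  ∃ t : (Fin j → Fin K × Bool) × (Fin K × Bool), Bad ρ P Lam lam (List.ofFn t.1) t.2 y

theorem badJ_count (hρ : IsIrr ρ) (hn : 2 ≤ n) (hK : 0 < K) {P : Matrix (Fin D) (Fin D) ℂ}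
    (hP : P.PosSemidef) {Lam lam : ℝ} (hlam : 0 < lam) {j J : ℕ} (hj : j < J) :
    (Nat.card {y : Fin K → Alt n // BadJ ρ P Lam lam j y} : ℝ) ≤
      (2 * (K : ℝ)) ^ J * (2 / lam * (Fintype.card (Alt n) : ℝ) ^ K) := by
  classical
  have h2K : (1 : ℝ) ≤ 2 * K := by
    have : (1 : ℝ) ≤ K := by exact_mod_cast hK
    linarith
  have h1 := card_exists_le (X := Fin K → Alt n)
    (fun (t : (Fin j → Fin K × Bool) × (Fin K × Bool)) y => Bad ρ P Lam lam (List.ofFn t.1) t.2 y)
    _ (fun t => bad_count hρ hn hP hlam (List.ofFn t.1) t.2)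
  refine le_trans h1 ?_
  refine mul_le_mul_of_nonneg_right ?_ (by positivity)
  rw [Fintype.card_prod, Fintype.card_fun, Fintype.card_prod, Fintype.card_fin,
    Fintype.card_fin, Fintype.card_bool]
  push_cast
  rw [mul_comm (K : ℝ) 2, ← pow_succ]
  exact pow_le_pow_right₀ h2K hj

/-- the good event for one representation -/
theorem goodL_count (hρ : IsIrr ρ) (hn : 2 ≤ n) (hK : 0 < K) {P : Matrix (Fin D) (Fin D) ℂ}
    (hP : P.PosSemidef) {Lam lam : ℝ} (hlam : 0 < lam) (J : ℕ) :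
    (Nat.card {y : Fin K → Alt n // ¬ GoodL (lett ρ y) P Lam lam J} : ℝ) ≤
      J * ((2 * (K : ℝ)) ^ J * (2 / lam * (Fintype.card (Alt n) : ℝ) ^ K)) := by
  classical
  have h3 := card_exists_le (X := Fin K → Alt n) (fun (j : Fin J) y => BadJ ρ P Lam lam (j : ℕ) y)
    _ (fun j => badJ_count hρ hn hK hP hlam j.2)
  rw [Fintype.card_fin] at h3
  refine le_trans ?_ h3
  have h4 : ∀ y : Fin K → Alt n, ¬ GoodL (lett ρ y) P Lam lam J → ∃ j : Fin J,
      BadJ ρ P Lam lam (j : ℕ) y := by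
    intro y hy
    unfold GoodL at hy
    push Not at hy
    obtain ⟨l, hl, a, ha, h5⟩ := hy
    refine ⟨⟨l.length, hl⟩, ⟨l.get, a⟩, ?_⟩
    unfold Bad
    have h6 : List.ofFn l.get = l := List.ofFn_get l
    simp only [h6]
    refine ⟨ha, ?_⟩
    rw [not_le]
    have h7 : 2 * (Lam * 2 ^ fr l) = Lam * 2 ^ (fr l + 1) := by ring
    rw [h7]
    exact h5
  have h5 := card_mono (X := Fin K → Alt n) (A := fun y => ¬ GoodL (lett ρ y) P Lam lam J)
    (B := fun y => ∃ j : Fin J, BadJ ρ P Lam lam (j : ℕ) y) h4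
  exact_mod_cast h5

end irr

end Pool.Agent.Helper6.E
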